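import Pool.Agent.H37.DEN.Targets

/-!
# Row IDX: the values modulo `e`
-/

set_option autoImplicit false

open MvPolynomial Filter
open Pool.Agent.H18.HIT Pool.Agent.H8.TD Pool.Agent.H37.DEN

namespace Pool.Agent.H7.DEN

/-! ## The substitution `t ↦ z t` in Laurent series -/

private noncomputable def sf {k : Type} [Field k] (z : k) (x : LaurentSeries k) :
    LaurentSeries k where
  coeff n := z ^ n * x.coeff n
  isPWO_support' := x.isPWO_support.mono (by
    intro n hn h0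
    apply hn
    change z ^ n * x.coeff n = 0
    rw [h0, mul_zero])

private theorem sf_coeff {k : Type} [Field k] (z : k) (x : LaurentSeries k) (n : ℤ) :
    (sf z x).coeff n = z ^ n * x.coeff n := rfl

private theorem sf_mul {k : Type} [Field k] (z : k) (hz : z ≠ 0) (x y : LaurentSeries k) :
    sf z (x * y) = sf z x * sf z y := by
  ext n
  rw [sf_coeff, HahnSeries.coeff_mul, HahnSeries.coeff_mul, Finset.mul_sum]
  have hs : ∀ (x : LaurentSeries k) (m : ℤ), m ∈ (sf z x).support ↔ m ∈ x.support := by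
    intro x m
    rw [HahnSeries.mem_support, HahnSeries.mem_support, sf_coeff]
    exact ⟨fun h h0 => h (by rw [h0, mul_zero]), fun h => mul_ne_zero (zpow_ne_zero _ hz) h⟩
  apply Finset.sum_congr
  · ext ij
    simp only [Finset.mem_addAntidiagonal, hs]
  · intro ij hij
    simp only [Finset.mem_addAntidiagonal] at hij
    rw [sf_coeff, sf_coeff, ← hij.2.2, zpow_add₀ hz]
    ring

private noncomputable def sg {k : Type} [Field k] (z : k) (hz : z ≠ 0) :
    LaurentSeries k →+* LaurentSeries k where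
  toFun := sf z
  map_one' := by
    ext n
    rw [sf_coeff, HahnSeries.coeff_one]
    split_ifs with h
    · rw [h]; simp
    · simp
  map_zero' := by
    ext n
    rw [sf_coeff]
    simp
  map_add' x y := by
    ext n
    rw [HahnSeries.coeff_add, sf_coeff, sf_coeff, sf_coeff, HahnSeries.coeff_add, mul_add]
  map_mul' := sf_mul z hz

private theorem sg_coeff {k : Type} [Field k] (z : k) (hz : z ≠ 0) (x : LaurentSeries k)
    (n : ℤ) : (sg z hz x).coeff n = z ^ n * x.coeff n := rfl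

/-! ## The homomorphisms to the ultrapower -/

section germs

variable {k : Type} [Field k] {S : Type} (U : Ultrafilter S)

/-- The homomorphism on the polynomials. -/
private noncomputable def J0 (ψ : S → Po 3 k →+* LaurentSeries k) :
    Po 3 k →+* Germ (U : Filter S) (LaurentSeries k) :=
  (Filter.Germ.coeRingHom (U : Filter S)).comp (RingHom.pi ψ)

private theorem J0_apply (ψ : S → Po 3 k →+* LaurentSeries k) (q : Po 3 k) :
    J0 U ψ q = ((fun s => ψ s q : S → LaurentSeries k) : Germ (U : Filter S) _) := rfl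

private theorem J0_inj (ψ : S → Po 3 k →+* LaurentSeries k)
    (h : ∀ q, q ≠ 0 → ∀ᶠ s in (U : Filter S), ψ s q ≠ 0) : Function.Injective (J0 U ψ) := by
  rw [injective_iff_map_eq_zero]
  intro q hq
  by_contra h0
  have h1 : ∀ᶠ s in (U : Filter S), ψ s q = 0 := Germ.coe_eq.1 hq
  obtain ⟨s, hs1, hs2⟩ := (h1.and (h q h0)).exists
  exact hs2 hs1

/-- The homomorphism on the rational functions. -/
private noncomputable def J1 (ψ : S → Po 3 k →+* LaurentSeries k)
    (h : ∀ q, q ≠ 0 → ∀ᶠ s in (U : Filter S), ψ s q ≠ 0) :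
    K3 k →+* Germ (U : Filter S) (LaurentSeries k) :=
  IsFractionRing.lift (J0_inj U ψ h)

private theorem J1_ι (ψ : S → Po 3 k →+* LaurentSeries k)
    (h : ∀ q, q ≠ 0 → ∀ᶠ s in (U : Filter S), ψ s q ≠ 0) (q : Po 3 k) :
    J1 U ψ h (ι q) = ((fun s => ψ s q : S → LaurentSeries k) : Germ (U : Filter S) _) := by
  rw [J1, ι, IsFractionRing.lift_algebraMap, J0_apply]

private theorem J1_div (ψ : S → Po 3 k →+* LaurentSeries k)
    (h : ∀ q, q ≠ 0 → ∀ᶠ s in (U : Filter S), ψ s q ≠ 0) (p q : Po 3 k) :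
    J1 U ψ h (ι p / ι q) =
      ((fun s => ψ s p / ψ s q : S → LaurentSeries k) : Germ (U : Filter S) _) := by
  rw [map_div₀, J1_ι, J1_ι]
  rfl

end germs

/-! ## Traces -/

private theorem trf (F K Om : Type) [Field F] [Field K] [Field Om] [Algebra F K]
    [FiniteDimensional F K] [Algebra.IsSeparable F K] (e : ℕ) (he : Module.finrank F K = e)
    (j : Fin e → K →+* Om) (hj : Function.Injective j)
    (hF : ∀ a b (x : F), j a (algebraMap F K x) = j b (algebraMap F K x)) (a0 : Fin e) (h : K) :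
    j a0 (algebraMap F K (Algebra.trace F K h)) = ∑ a, j a h := by
  classical
  let _ : Algebra F (AlgebraicClosure Om) :=
    ((algebraMap Om (AlgebraicClosure Om)).comp ((j a0).comp (algebraMap F K))).toAlgebra
  let σ : Fin e → K →ₐ[F] AlgebraicClosure Om := fun a =>
    { (algebraMap Om (AlgebraicClosure Om)).comp (j a) with
      commutes' := fun x => congrArg (algebraMap Om (AlgebraicClosure Om)) (hF a a0 x) }
  have hinj := (algebraMap Om (AlgebraicClosure Om)).injective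
  have hσ : Function.Injective σ := by
    intro a b hab
    apply hj
    ext x
    exact hinj (DFunLike.congr_fun hab x)
  have hcard : Fintype.card (Fin e) = Fintype.card (K →ₐ[F] AlgebraicClosure Om) := by
    rw [AlgHom.card, Fintype.card_fin, he]
  have hbij : Function.Bijective σ := (Fintype.bijective_iff_injective_and_card σ).2 ⟨hσ, hcard⟩
  have h1 := trace_eq_sum_embeddings (K := F) (L := K) (AlgebraicClosure Om) (x := h)
  rw [← hbij.sum_comp (fun s : K →ₐ[F] AlgebraicClosure Om => s h)] at h1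
  apply hinj
  rw [map_sum]
  exact h1

/-- The dimension argument. -/
private theorem dma (F K : Type) [Field F] [Field K] [Algebra F K] [FiniteDimensional F K]
    (e : ℕ) [NeZero e] (he : Module.finrank F K = e) (R : K → ZMod e → Prop)
    (hR : ∀ h, h ≠ 0 → ∃ c, R h c)
    (hRd : ∀ g u c c', g ≠ 0 → u ≠ 0 → R g c → R u c' → R (g * u⁻¹) (c - c'))
    (hT : ∀ h, h ≠ 0 → R h 0 → Algebra.trace F K h ≠ 0) : ∃ u, u ≠ 0 ∧ R u 1 := by
  classical
  by_contra hno
  push Not at hno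
  let H := {c : ZMod e // ∃ h, h ≠ 0 ∧ R h c}
  have hcard : Fintype.card H < e := by
    have h1 : Fintype.card H < Fintype.card (ZMod e) := by
      apply Fintype.card_subtype_lt (x := (1 : ZMod e))
      rintro ⟨h, h0, h1⟩
      exact hno h h0 h1
    rwa [ZMod.card] at h1
  choose u hu0 hu using fun c : H => c.2
  let L : K →ₗ[F] (H → F) :=
    LinearMap.pi fun c => (Algebra.trace F K) ∘ₗ (LinearMap.mulRight F (u c)⁻¹)
  have hker : LinearMap.ker L ≠ ⊥ := by
    apply LinearMap.ker_ne_bot_of_finrank_lt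
    rw [Module.finrank_fintype_fun_eq_card, he]
    exact hcard
  obtain ⟨g, hgL, hg0⟩ := Submodule.exists_mem_ne_zero_of_ne_bot hker
  obtain ⟨c, hc⟩ := hR g hg0
  have h1 : R (g * (u ⟨c, g, hg0, hc⟩)⁻¹) 0 := by
    have h2 := hRd g (u ⟨c, g, hg0, hc⟩) c c hg0 (hu0 _) hc (hu ⟨c, g, hg0, hc⟩)
    rwa [sub_self] at h2
  have h3 : Algebra.trace F K (g * (u ⟨c, g, hg0, hc⟩)⁻¹) = 0 :=
    congrFun (LinearMap.mem_ker.1 hgL) ⟨c, g, hg0, hc⟩
  exact hT _ (mul_ne_zero hg0 (inv_ne_zero (hu0 _))) h1 h3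

/-! ## Roots of unity -/

/-- The sum over the roots of unity. -/
private theorem sru {k : Type} [Field k] [CharZero k] {S : Type} (U : Ultrafilter S) (e : ℕ)
    (he : e ≠ 0) (ζ : k) (hζ : ζ ^ e = 1) (hζ0 : ∀ a : Fin e, ζ ^ (a : ℕ) ≠ 0)
    (y : S → LaurentSeries k)
    (hy : ∀ᶠ s in (U : Filter S), y s ≠ 0 ∧ (e : ℤ) ∣ (y s).order) :
    ∑ a : Fin e, ((fun s => sg (ζ ^ (a : ℕ)) (hζ0 a) (y s) : S → LaurentSeries k) :
      Germ (U : Filter S) (LaurentSeries k)) ≠ 0 := by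
  intro h0
  have h1 : ((∑ a : Fin e, (fun s => sg (ζ ^ (a : ℕ)) (hζ0 a) (y s)) :
      S → LaurentSeries k) : Germ (U : Filter S) (LaurentSeries k)) = 0 := by
    rw [← h0]
    exact map_sum (Filter.Germ.coeRingHom (U : Filter S)) _ _
  have h2 : ∀ᶠ s in (U : Filter S),
      (∑ a : Fin e, (fun s => sg (ζ ^ (a : ℕ)) (hζ0 a) (y s)) : S → LaurentSeries k) s = 0 :=
    Germ.coe_eq.1 h1
  obtain ⟨s, hs1, hs2, n, hs3⟩ := (h2.and hy).exists
  rw [Finset.sum_apply] at hs1
  have h3 := congrArg (fun x : LaurentSeries k => x.coeff (y s).order) hs1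
  simp only [HahnSeries.coeff_sum, sg_coeff, HahnSeries.coeff_zero] at h3
  have h4 : ∀ a : Fin e, (ζ ^ (a : ℕ)) ^ ((y s).order) = 1 := by
    intro a
    rw [hs3, ← zpow_natCast, ← zpow_mul, mul_comm, mul_assoc, zpow_mul, zpow_natCast, hζ,
      one_zpow]
  simp only [h4, one_mul, Finset.sum_const, Finset.card_univ, Fintype.card_fin,
    nsmul_eq_mul] at h3
  rcases mul_eq_zero.1 h3 with h5 | h5
  · exact he (by exact_mod_cast h5)
  · exact hs2 (HahnSeries.coeff_order_eq_zero.1 h5)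

private theorem dvo {k : Type} [Field k] (x y : LaurentSeries k) (hx : x ≠ 0) (hy : y ≠ 0) :
    x / y ≠ 0 ∧ (x / y).order = x.order - y.order := by
  have h1 : x / y ≠ 0 := div_ne_zero hx hy
  refine ⟨h1, ?_⟩
  have h2 := HahnSeries.order_mul h1 hy
  rw [div_mul_cancel₀ x hy] at h2
  omega

private theorem sfx {k : Type} [Field k] (z : k) (hz : z ≠ 0) (e : ℕ) (hze : z ^ e = 1)
    (x y : LaurentSeries k) (h : IsPow e x y) : sg z hz y = y := by
  ext n
  rw [sg_coeff]
  by_cases hn : (e : ℤ) ∣ n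
  · obtain ⟨m, rfl⟩ := hn
    rw [zpow_mul, zpow_natCast, hze, one_zpow, one_mul]
  · rw [(h n).2 hn, mul_zero]

theorem pf_IDX (hRDG : T_RDG) (hVAL : Pool.Agent.H37.DEN.T_VAL) : T_IDX := by
  classical
  intro k _ _ _ T τ e m S U C hFam i
  have fld := hFam.fld
  have he2 := fld.two
  have he0 : e ≠ 0 := by omega
  have : NeZero e := ⟨he0⟩
  obtain ⟨hVt, -, hVn⟩ := hVAL k T τ e m S U C hFam i
  have hnd := (hRDG k).1
  -- a primitive root of unity
  have : NeZero ((e : ℕ) : k) := ⟨by exact_mod_cast he0⟩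
  obtain ⟨ζ, hζ⟩ : ∃ z : k, IsPrimitiveRoot z e := by
    obtain ⟨z, hz⟩ := IsAlgClosed.exists_root (Polynomial.cyclotomic e k)
      (Polynomial.degree_cyclotomic_pos e k (by omega)).ne'
    exact ⟨z, Polynomial.isRoot_cyclotomic_iff.1 hz⟩
  have hζ0 : ∀ a : Fin e, ζ ^ (a : ℕ) ≠ 0 := fun a => pow_ne_zero _ (hζ.ne_zero he0)
  -- the homomorphisms
  let ψ : Fin e → S → Po 3 k →+* LaurentSeries k := fun a s =>
    (sg (ζ ^ (a : ℕ)) (hζ0 a)).comp ((C s).ch i : Po 3 k →+* LaurentSeries k)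
  have hψ : ∀ a q, q ≠ 0 → ∀ᶠ s in (U : Filter S), ψ a s q ≠ 0 := by
    intro a q hq
    filter_upwards [hFam.gen q hq] with s hs
    exact (_root_.map_ne_zero (sg (ζ ^ (a : ℕ)) (hζ0 a))).2 (hs i)
  let j : Fin e → K3 k →+* Germ (U : Filter S) (LaurentSeries k) := fun a => J1 U (ψ a) (hψ a)
  have hjh : ∀ (a : Fin e) (h : K3 k), j a h =
      ((fun s => sg (ζ ^ (a : ℕ)) (hζ0 a) ((C s).ch i (nu h) / (C s).ch i (de h)) :
        S → LaurentSeries k) : Germ (U : Filter S) (LaurentSeries k)) := by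
    intro a h
    have h1 : j a h = j a (ι (nu h) / ι (de h)) := congrArg (j a) (hnd h).2.1
    rw [h1]
    refine (J1_div U (ψ a) (hψ a) (nu h) (de h)).trans (Germ.coe_eq.2 (Eventually.of_forall ?_))
    intro s
    exact (map_div₀ (sg (ζ ^ (a : ℕ)) (hζ0 a)) _ _).symm
  have hfix : ∀ (a : Fin e) (s : S) (q : Po 3 k), ψ a s (aeval T q) = (C s).ch i (aeval T q) := by
    intro a s q
    refine sfx (ζ ^ (a : ℕ)) (hζ0 a) e ?_ _ _ ((C s).pow i q)
    rw [← pow_mul, mul_comm, pow_mul, hζ.pow_eq_one, one_pow]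
  have hjτ : ∀ (a b : Fin e) (h : K3 k), j a (τ h) = j b (τ h) := by
    intro a b h
    have h1 : τ h = ι (aeval T (nu h)) / ι (aeval T (de h)) := by
      conv_lhs => rw [(hnd h).2.1]
      rw [map_div₀, fld.map, fld.map]
    rw [h1]
    refine (J1_div U (ψ a) (hψ a) _ _).trans (Eq.trans ?_ (J1_div U (ψ b) (hψ b) _ _).symm)
    refine Germ.coe_eq.2 (Eventually.of_forall ?_)
    intro s
    change ψ a s _ / ψ a s _ = ψ b s _ / ψ b s _
    rw [hfix, hfix, hfix, hfix]
  have hjinj : Function.Injective j := by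
    intro a b hab
    by_contra hne
    have h1 : ∀ l : Fin 3, ∀ᶠ s in (U : Filter S), ψ a s (X l) = ψ b s (X l) := by
      intro l
      have h2 : j a (ι (X l)) = j b (ι (X l)) := by rw [hab]
      exact Germ.coe_eq.1 ((J1_ι U (ψ a) (hψ a) (X l)).symm.trans
        (h2.trans (J1_ι U (ψ b) (hψ b) (X l))))
    obtain ⟨s, hs⟩ := (eventually_all.2 h1).exists
    have hw1 : ζ ^ (a : ℕ) / ζ ^ (b : ℕ) ≠ 1 := by
      intro h3
      rw [div_eq_one_iff_eq (hζ0 b)] at h3
      exact hne (Fin.ext (hζ.pow_inj a.2 b.2 h3))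
    have hwe : (ζ ^ (a : ℕ) / ζ ^ (b : ℕ)) ^ e = 1 := by
      rw [div_pow, ← pow_mul, ← pow_mul, mul_comm, pow_mul, mul_comm, pow_mul, hζ.pow_eq_one,
        one_pow, one_pow, div_one]
    have hr : 1 < orderOf (ζ ^ (a : ℕ) / ζ ^ (b : ℕ)) := by
      have h4 : orderOf (ζ ^ (a : ℕ) / ζ ^ (b : ℕ)) ≠ 1 := by
        rw [Ne, orderOf_eq_one_iff]
        exact hw1
      have h5 : 0 < orderOf (ζ ^ (a : ℕ) / ζ ^ (b : ℕ)) := by
        rw [orderOf_pos_iff, isOfFinOrder_iff_pow_eq_one]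
        exact ⟨e, by omega, hwe⟩
      omega
    obtain ⟨l, n, hn1, hn2⟩ := (C s).prim i _ hr
    have h6 : (ζ ^ (a : ℕ)) ^ n * ((C s).ch i (X l)).coeff n =
        (ζ ^ (b : ℕ)) ^ n * ((C s).ch i (X l)).coeff n :=
      congrArg (fun x : LaurentSeries k => x.coeff n) (hs l)
    have h7 := mul_right_cancel₀ hn2 h6
    apply hn1
    have h8 := IsPrimitiveRoot.orderOf (ζ ^ (a : ℕ) / ζ ^ (b : ℕ))
    rw [← h8.zpow_eq_one_iff_dvd, div_zpow, h7, div_self (zpow_ne_zero _ (hζ0 b))]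
  -- the trace
  have hfd : FiniteDimensional τ.fieldRange (K3 k) :=
    Module.finite_of_finrank_pos (by rw [fld.fin]; omega)
  have : CharZero τ.fieldRange := charZero_of_injective_algebraMap
    (algebraMap k τ.fieldRange).injective
  have hF : ∀ (a b : Fin e) (x : τ.fieldRange), j a (algebraMap τ.fieldRange (K3 k) x) =
      j b (algebraMap τ.fieldRange (K3 k) x) := by
    rintro a b ⟨_, ⟨h, rfl⟩⟩
    exact hjτ a b h
  have hRex : ∀ h : K3 k, h ≠ 0 → ∃ c : ZMod e,
      ∀ᶠ s in (U : Filter S), ((vs ((C s).ch i) h : ℤ) : ZMod e) = c := by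
    intro h _
    obtain ⟨c, hc⟩ := Ultrafilter.eq_pure_of_finite
      (U.map fun s => ((vs ((C s).ch i) h : ℤ) : ZMod e))
    refine ⟨c, ?_⟩
    have h1 : {c} ∈ U.map fun s => ((vs ((C s).ch i) h : ℤ) : ZMod e) := by
      rw [hc]
      exact Set.mem_singleton c
    exact h1
  have hRd : ∀ (g w : K3 k) (c c' : ZMod e), g ≠ 0 → w ≠ 0 →
      (∀ᶠ s in (U : Filter S), ((vs ((C s).ch i) g : ℤ) : ZMod e) = c) →
      (∀ᶠ s in (U : Filter S), ((vs ((C s).ch i) w : ℤ) : ZMod e) = c') →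
      ∀ᶠ s in (U : Filter S), ((vs ((C s).ch i) (g * w⁻¹) : ℤ) : ZMod e) = c - c' := by
    intro g w c c' hg0 hw0 hg hw
    have h1 := hVt.mul (g * w⁻¹) w (mul_ne_zero hg0 (inv_ne_zero hw0)) hw0
    rw [inv_mul_cancel_right₀ hw0] at h1
    have h2 : ∀ᶠ s in (U : Filter S), vs ((C s).ch i) g =
        vs ((C s).ch i) (g * w⁻¹) + vs ((C s).ch i) w := Germ.coe_eq.1 h1
    filter_upwards [h2, hg, hw] with s hs1 hs2 hs3
    rw [← hs2, ← hs3, hs1]
    push_cast
    ring
  have hT : ∀ h : K3 k, h ≠ 0 →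
      (∀ᶠ s in (U : Filter S), ((vs ((C s).ch i) h : ℤ) : ZMod e) = 0) →
      Algebra.trace τ.fieldRange (K3 k) h ≠ 0 := by
    intro h h0 hR0 htr
    have h1 := trf τ.fieldRange (K3 k) _ e fld.fin j hjinj hF ⟨0, by omega⟩ h
    rw [htr, map_zero, map_zero] at h1
    have h2 : ∑ a : Fin e, j a h = 0 := h1.symm
    rw [Finset.sum_congr rfl (fun a _ => hjh a h)] at h2
    refine sru U e he0 ζ hζ.pow_eq_one hζ0 (fun s => (C s).ch i (nu h) / (C s).ch i (de h)) ?_ h2
    filter_upwards [hVn h h0, hR0] with s hs1 hs2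
    obtain ⟨h3, h4⟩ := dvo _ _ hs1.1 hs1.2
    refine ⟨h3, ?_⟩
    rw [h4]
    exact (ZMod.intCast_zmod_eq_zero_iff_dvd _ e).1 hs2
  obtain ⟨u, hu0, hu⟩ := dma τ.fieldRange (K3 k) e fld.fin
    (fun h c => ∀ᶠ s in (U : Filter S), ((vs ((C s).ch i) h : ℤ) : ZMod e) = c) hRex hRd hT
  -- the generator
  refine ⟨u, hu0, ?_, ?_⟩
  · intro n l hl
    induction l using Germ.inductionOn with
    | h l =>
      have h1 : ∀ᶠ s in (U : Filter S), n * vs ((C s).ch i) u = (e : ℤ) * l s := by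
        have h2 := Germ.coe_eq.1 hl
        filter_upwards [h2] with s hs
        simpa using hs
      obtain ⟨s, hs1, hs2⟩ := (h1.and hu).exists
      have h3 := congrArg (fun x : ℤ => (x : ZMod e)) hs1
      push_cast at h3
      rw [hs2, mul_one, ZMod.natCast_self, zero_mul] at h3
      exact (ZMod.intCast_zmod_eq_zero_iff_dvd n e).1 h3
  · intro h h0
    obtain ⟨c, hc⟩ := hRex h h0
    refine ⟨c.val, ((fun s => (vs ((C s).ch i) h - (c.val : ℤ) * vs ((C s).ch i) u) / e :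
      S → ℤ) : Germ (U : Filter S) ℤ), ZMod.val_lt c, ?_⟩
    apply Germ.coe_eq.2
    filter_upwards [hc, hu] with s hs1 hs2
    have h1 : (e : ℤ) ∣ vs ((C s).ch i) h - (c.val : ℤ) * vs ((C s).ch i) u := by
      rw [← ZMod.intCast_zmod_eq_zero_iff_dvd]
      push_cast
      rw [hs1, hs2, mul_one, ZMod.natCast_zmod_val, sub_self]
    change vs ((C s).ch i) h = (c.val : ℤ) • vs ((C s).ch i) u +
      (e : ℤ) • ((vs ((C s).ch i) h - (c.val : ℤ) * vs ((C s).ch i) u) / e)
    rw [smul_eq_mul, smul_eq_mul, Int.mul_ediv_cancel' h1]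
    omega

end Pool.Agent.H7.DEN
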